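import Pool.Agent.Run7.h735.FM.Gsp

/-!
# Degenerate forms (helper735)
-/

set_option autoImplicit false

namespace Pool.Agent.Run7.h735.FM

open Matrix

section
variable {κ : Type} [Field κ] {n r d : ℕ}

/-- matrices which preserve the kernel of `P` and induce an element of `D` on the quotient -/
def blk (P : Matrix (Fin r) (Fin n) κ) (P' : Matrix (Fin n) (Fin r) κ)
    (D : Submodule κ (Matrix (Fin r) (Fin r) κ)) : Submodule κ (Matrix (Fin n) (Fin n) κ) where
  carrier := {X | P * X = P * X * P' * P ∧ P * X * P' ∈ D}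
  add_mem' := by
    rintro x y ⟨h1, h2⟩ ⟨h3, h4⟩
    refine ⟨?_, ?_⟩
    · have : P * (x + y) * P' * P = P * x * P' * P + P * y * P' * P := by
        rw [Matrix.mul_add, Matrix.add_mul, Matrix.add_mul]
      rw [this, ← h1, ← h3, Matrix.mul_add]
    · rw [Matrix.mul_add, Matrix.add_mul]
      exact D.add_mem h2 h4
  zero_mem' := ⟨by simp, by simp⟩
  smul_mem' := by
    rintro a x ⟨h1, h2⟩
    refine ⟨?_, ?_⟩
    · rw [Matrix.mul_smul, Matrix.smul_mul, Matrix.smul_mul, ← h1]
    · rw [Matrix.mul_smul, Matrix.smul_mul]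
      exact D.smul_mem _ h2

/-- matrices with image in the kernel of `P` -/
def blk2 (P : Matrix (Fin r) (Fin n) κ) (Q : Matrix (Fin n) (Fin d) κ)
    (Q' : Matrix (Fin d) (Fin n) κ) (E : Submodule κ (Matrix (Fin d) (Fin d) κ)) :
    Submodule κ (Matrix (Fin n) (Fin n) κ) where
  carrier := {X | P * X = 0 ∧ Q' * X * Q ∈ E}
  add_mem' := by
    rintro x y ⟨h1, h2⟩ ⟨h3, h4⟩
    refine ⟨by rw [Matrix.mul_add, h1, h3, add_zero], ?_⟩
    rw [Matrix.mul_add, Matrix.add_mul]
    exact E.add_mem h2 h4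
  zero_mem' := ⟨by simp, by simp⟩
  smul_mem' := by
    rintro a x ⟨h1, h2⟩
    refine ⟨by rw [Matrix.mul_smul, h1, smul_zero], ?_⟩
    rw [Matrix.mul_smul, Matrix.smul_mul]
    exact E.smul_mem _ h2

variable {P : Matrix (Fin r) (Fin n) κ} {P' : Matrix (Fin n) (Fin r) κ}
  {Q : Matrix (Fin n) (Fin d) κ} {Q' : Matrix (Fin d) (Fin n) κ}

theorem sol_blk2 (h1 : P' * P + Q * Q' = 1) {E : Submodule κ (Matrix (Fin d) (Fin d) κ)}
    (hE : Sol ⊥ E) : Sol ⊥ (blk2 P Q Q' E) := by
  induction hE with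
  | @base L hL =>
    refine Sol.step (L' := ⊥) ?_ (Sol.base le_rfl)
    have key : ∀ x ∈ blk2 P Q Q' L, ∀ y ∈ blk2 P Q Q' L, x * y = 0 := by
      rintro x ⟨hx1, hx2⟩ y ⟨hy1, hy2⟩
      replace hx2 := hL hx2
      replace hy2 := hL hy2
      rw [Submodule.mem_bot] at hx2 hy2
      have e1 : x * Q = 0 := by
        calc x * Q = (P' * P + Q * Q') * (x * Q) := by rw [h1, Matrix.one_mul]
          _ = P' * (P * x) * Q + Q * (Q' * x * Q) := by
            rw [Matrix.add_mul]
            simp only [Matrix.mul_assoc]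
          _ = 0 := by rw [hx1, hx2]; simp
      calc x * y = x * ((P' * P + Q * Q') * y) := by rw [h1, Matrix.one_mul]
        _ = x * P' * (P * y) + x * Q * (Q' * y) := by
          rw [Matrix.add_mul, Matrix.mul_add]
          simp only [Matrix.mul_assoc]
        _ = 0 := by rw [hy1, e1]; simp
    intro x hx y hy
    rw [Submodule.mem_bot, key x hx y hy, key y hy x hx, sub_zero]
  | step h2 h3 ih =>
    refine Sol.step ?_ ih
    rintro x ⟨hx1, hx2⟩ y ⟨hy1, hy2⟩
    have e : ∀ x y : Matrix (Fin n) (Fin n) κ, P * y = 0 →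
        Q' * (x * y) * Q = (Q' * x * Q) * (Q' * y * Q) := by
      intro x y hy
      calc Q' * (x * y) * Q = Q' * (x * ((P' * P + Q * Q') * y)) * Q := by rw [h1, Matrix.one_mul]
        _ = Q' * x * P' * (P * y) * Q + (Q' * x * Q) * (Q' * y * Q) := by
          rw [Matrix.add_mul, Matrix.mul_add, Matrix.mul_add, Matrix.add_mul]
          simp only [Matrix.mul_assoc]
        _ = (Q' * x * Q) * (Q' * y * Q) := by rw [hy]; simp
    refine ⟨?_, ?_⟩
    · rw [Matrix.mul_sub, ← Matrix.mul_assoc, ← Matrix.mul_assoc, hx1, hy1]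
      simp
    · have e2 : Q' * (x * y - y * x) * Q =
          (Q' * x * Q) * (Q' * y * Q) - (Q' * y * Q) * (Q' * x * Q) := by
        rw [Matrix.mul_sub, Matrix.sub_mul, e x y hy1, e y x hx1]
      rw [e2]
      exact h2 _ hx2 _ hy2

theorem sol_blk (h1 : P' * P + Q * Q' = 1) {D : Submodule κ (Matrix (Fin r) (Fin r) κ)}
    (hD : Sol ⊥ D) (hE : Sol ⊥ (⊤ : Submodule κ (Matrix (Fin d) (Fin d) κ))) :
    Sol ⊥ (blk P P' D) := by
  induction hD with
  | base hL =>
    refine (sol_blk2 (P := P) h1 hE).mono ?_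
    rintro x ⟨hx1, hx2⟩
    replace hx2 := hL hx2
    rw [Submodule.mem_bot] at hx2
    refine ⟨?_, Submodule.mem_top⟩
    rw [hx1, hx2, Matrix.zero_mul]
  | step h2 h3 ih =>
    refine Sol.step ?_ ih
    rintro x ⟨hx1, hx2⟩ y ⟨hy1, hy2⟩
    have e : ∀ x y : Matrix (Fin n) (Fin n) κ, P * x = P * x * P' * P → P * y = P * y * P' * P →
        P * (x * y) = (P * x * P') * (P * y * P') * P := by
      intro x y hx hy
      calc P * (x * y) = (P * x) * y := by rw [Matrix.mul_assoc]
        _ = (P * x * P') * (P * y) := by conv_lhs => rw [hx, Matrix.mul_assoc]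
        _ = (P * x * P') * (P * y * P' * P) := by conv_lhs => rw [hy]
        _ = (P * x * P') * (P * y * P') * P := by simp only [Matrix.mul_assoc]
    have e3 : P * (x * y - y * x) = ((P * x * P') * (P * y * P') -
        (P * y * P') * (P * x * P')) * P := by
      rw [Matrix.mul_sub, e x y hx1 hy1, e y x hy1 hx1, Matrix.sub_mul]
    have e' : ∀ x y : Matrix (Fin n) (Fin n) κ, P * x = P * x * P' * P → 
        P * (x * y) * P' = (P * x * P') * (P * y * P') := by
      intro x y hx
      calc P * (x * y) * P' = (P * x) * y * P' := by simp only [Matrix.mul_assoc]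
        _ = (P * x * P' * P) * y * P' := by conv_lhs => rw [hx]
        _ = (P * x * P') * (P * y * P') := by simp only [Matrix.mul_assoc]
    have e4 : P * (x * y - y * x) * P' = (P * x * P') * (P * y * P') -
        (P * y * P') * (P * x * P') := by
      rw [Matrix.mul_sub, Matrix.sub_mul, e' x y hx1, e' y x hy1]
    refine ⟨?_, ?_⟩
    · rw [e4, e3]
    · rw [e4]
      exact h2 _ hx2 _ hy2

theorem gsp_le_blk {B : Matrix (Fin n) (Fin n) κ} {Ω : Matrix (Fin r) (Fin r) κ}
    (h1 : P' * P + Q * Q' = 1) (h2 : P * P' = 1) (h3 : P * Q = 0) (hB : B = Pᵀ * Ω * P)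
    (hΩ : IsUnit Ω) : gsp B ≤ blk P P' (gsp Ω) := by
  rintro X ⟨c, hc⟩
  have h2' : P'ᵀ * Pᵀ = 1 := by
    rw [← Matrix.transpose_mul, h2, Matrix.transpose_one]
  have e1 : P'ᵀ * Xᵀ * Pᵀ * Ω * P + Ω * (P * X) = c • (Ω * P) := by
    have h4 := congrArg (fun M => P'ᵀ * M) hc
    rw [Matrix.mul_add, Matrix.mul_smul] at h4
    have h5 : P'ᵀ * B = Ω * P := by
      rw [hB, ← Matrix.mul_assoc, ← Matrix.mul_assoc, h2', Matrix.one_mul]
    rw [← Matrix.mul_assoc (P'ᵀ) B X, h5] at h4
    rw [← h4, hB]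
    simp only [Matrix.mul_assoc]
  have e2 : P * X * Q = 0 := by
    have h4 := congrArg (fun M => M * Q) e1
    rw [Matrix.add_mul, Matrix.smul_mul, Matrix.mul_assoc _ P Q, Matrix.mul_assoc Ω P Q, h3,
      Matrix.mul_zero, zero_add, Matrix.mul_zero, smul_zero, Matrix.mul_assoc Ω] at h4
    obtain ⟨Ω', hΩ'⟩ := hΩ.exists_left_inv
    calc P * X * Q = Ω' * Ω * (P * X * Q) := by rw [hΩ', Matrix.one_mul]
      _ = Ω' * (Ω * (P * X * Q)) := by rw [Matrix.mul_assoc]
      _ = 0 := by rw [h4, Matrix.mul_zero]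
  refine ⟨?_, c, ?_⟩
  · calc P * X = P * X * (P' * P + Q * Q') := by rw [h1, Matrix.mul_one]
      _ = P * X * P' * P + P * X * Q * Q' := by
        rw [Matrix.mul_add, ← Matrix.mul_assoc, ← Matrix.mul_assoc]
      _ = P * X * P' * P := by rw [e2, Matrix.zero_mul, add_zero]
  · have h4 := congrArg (fun M => M * P') e1
    rw [Matrix.add_mul, Matrix.smul_mul, Matrix.mul_assoc _ P P', Matrix.mul_assoc Ω P P', h2,
      Matrix.mul_one, Matrix.mul_one, Matrix.mul_assoc Ω] at h4
    rw [← h4, Matrix.transpose_mul, Matrix.transpose_mul]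
    simp only [Matrix.mul_assoc]

/-- decomposition of a symmetric form -/
theorem exists_split (B : Matrix (Fin n) (Fin n) κ) (hB : Bᵀ = B) :
    ∃ (r d : ℕ) (P : Matrix (Fin r) (Fin n) κ) (P' : Matrix (Fin n) (Fin r) κ)
      (Q : Matrix (Fin n) (Fin d) κ) (Q' : Matrix (Fin d) (Fin n) κ) (Ω : Matrix (Fin r) (Fin r) κ),
      r = B.rank ∧ r + d = n ∧ P' * P + Q * Q' = 1 ∧ P * P' = 1 ∧ P * Q = 0 ∧
      B = Pᵀ * Ω * P ∧ Ω = P'ᵀ * B * P' ∧ IsUnit Ω := by
  set R : Submodule κ (Fin n → κ) := LinearMap.ker B.mulVecLin with hR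
  obtain ⟨C, hC⟩ := Submodule.exists_isCompl R
  have hfr : Module.finrank κ C = B.rank := by
    have h1 := Submodule.finrank_add_eq_of_isCompl hC
    have h2 := LinearMap.finrank_range_add_finrank_ker B.mulVecLin
    rw [← hR, ← h1] at h2
    have h3 : Module.finrank κ (LinearMap.range B.mulVecLin) = B.rank := rfl
    omega
  have hfn : Module.finrank κ C + Module.finrank κ R = n := by
    have h1 := Submodule.finrank_add_eq_of_isCompl hC
    rw [Module.finrank_fin_fun] at h1
    omega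
  set bC := (Module.finBasis κ C).equivFun with hbC
  set bR := (Module.finBasis κ R).equivFun with hbR
  set p := C.projectionOnto R hC.symm with hp
  set q := R.projectionOnto C hC with hq
  set P : Matrix (Fin (Module.finrank κ C)) (Fin n) κ := LinearMap.toMatrix' (bC.toLinearMap ∘ₗ p)
    with hP
  set P' : Matrix (Fin n) (Fin (Module.finrank κ C)) κ :=
    LinearMap.toMatrix' (C.subtype ∘ₗ bC.symm.toLinearMap) with hP'
  set Q' : Matrix (Fin (Module.finrank κ R)) (Fin n) κ := LinearMap.toMatrix' (bR.toLinearMap ∘ₗ q)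
    with hQ'
  set Q : Matrix (Fin n) (Fin (Module.finrank κ R)) κ :=
    LinearMap.toMatrix' (R.subtype ∘ₗ bR.symm.toLinearMap) with hQ
  have hBv : B = LinearMap.toMatrix' B.mulVecLin := by
    rw [← Matrix.toLin'_apply', LinearMap.toMatrix'_toLin']
  have h1 : P' * P + Q * Q' = 1 := by
    rw [hP', hP, hQ, hQ', ← LinearMap.toMatrix'_comp, ← LinearMap.toMatrix'_comp, ← map_add,
      ← LinearMap.toMatrix'_id]
    congr 1
    apply LinearMap.ext
    intro v
    simp only [LinearMap.add_apply, LinearMap.comp_apply, LinearEquiv.coe_coe,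
      LinearEquiv.symm_apply_apply, Submodule.subtype_apply, LinearMap.id_apply]
    have h := Submodule.projection_add_projection_eq_self hC.symm v
    exact h
  have h2 : P * P' = 1 := by
    rw [hP', hP, ← LinearMap.toMatrix'_comp, ← LinearMap.toMatrix'_id]
    congr 1
    apply LinearMap.ext
    intro v
    simp only [LinearMap.comp_apply, LinearEquiv.coe_coe, Submodule.subtype_apply,
      LinearMap.id_apply]
    rw [hp, Submodule.projectionOnto_apply_left, LinearEquiv.apply_symm_apply]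
  have h3 : P * Q = 0 := by
    rw [hP, hQ, ← LinearMap.toMatrix'_comp]
    have : (bC.toLinearMap ∘ₗ p) ∘ₗ (R.subtype ∘ₗ bR.symm.toLinearMap) = 0 := by
      apply LinearMap.ext
      intro v
      simp only [LinearMap.comp_apply, LinearEquiv.coe_coe, Submodule.subtype_apply,
        LinearMap.zero_apply]
      rw [hp, Submodule.projectionOnto_apply_right, map_zero]
    rw [this, map_zero]
  have h4 : B * Q = 0 := by
    conv_lhs => rw [hBv, hQ, ← LinearMap.toMatrix'_comp]
    have : B.mulVecLin ∘ₗ (R.subtype ∘ₗ bR.symm.toLinearMap) = 0 := by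
      apply LinearMap.ext
      intro v
      simp only [LinearMap.comp_apply, LinearEquiv.coe_coe, Submodule.subtype_apply,
        LinearMap.zero_apply]
      exact (bR.symm v).2
    rw [this, map_zero]
  have h5 : Qᵀ * B = 0 := by
    have := congrArg Matrix.transpose h4
    rwa [Matrix.transpose_mul, hB, Matrix.transpose_zero] at this
  have h6 : B = Pᵀ * (P'ᵀ * B * P') * P := by
    have e1 : B = B * (P' * P) := by
      calc B = B * (P' * P + Q * Q') := by rw [h1, Matrix.mul_one]
        _ = B * (P' * P) + B * Q * Q' := by rw [Matrix.mul_add, Matrix.mul_assoc B Q Q']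
        _ = B * (P' * P) := by rw [h4, Matrix.zero_mul, add_zero]
    have e2 : B = Pᵀ * P'ᵀ * B := by
      have := congrArg Matrix.transpose e1
      rwa [Matrix.transpose_mul, hB, Matrix.transpose_mul] at this
    calc B = B * (P' * P) := e1
      _ = Pᵀ * P'ᵀ * B * (P' * P) := by rw [← e2]
      _ = Pᵀ * (P'ᵀ * B * P') * P := by simp only [Matrix.mul_assoc]
  refine ⟨_, _, P, P', Q, Q', P'ᵀ * B * P', hfr, hfn, h1, h2, h3, h6, rfl, ?_⟩
  rw [← Matrix.mulVec_injective_iff_isUnit]
  have hinj : ∀ x, (P'ᵀ * B * P') *ᵥ x = 0 → x = 0 := by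
    intro x hx
    have e1 : B *ᵥ (P' *ᵥ x) = 0 := by
      conv_lhs => rw [h6]
      rw [Matrix.mulVec_mulVec, Matrix.mul_assoc _ P P', h2, Matrix.mul_one,
        ← Matrix.mulVec_mulVec, hx, Matrix.mulVec_zero]
    have e2 : P' *ᵥ x ∈ R := e1
    have e3 : P *ᵥ (P' *ᵥ x) = 0 := by
      rw [hP, LinearMap.toMatrix'_mulVec, LinearMap.comp_apply, hp]
      rw [(Submodule.projectionOnto_apply_eq_zero_iff hC.symm).2 e2, map_zero]
    rwa [Matrix.mulVec_mulVec, h2, Matrix.one_mulVec] at e3
  intro x y hxy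
  have h7 := hinj (x - y) (by
    rw [Matrix.mulVec_sub]
    exact sub_eq_zero.2 hxy)
  exact sub_eq_zero.1 h7

variable [CharP κ 2]

/-- **similitudes of alternating forms of rank at most four with a radical of dimension at most
two, in characteristic two** -/
theorem sol_gsp {B : Matrix (Fin n) (Fin n) κ} (h1 : ∀ i, B i i = 0) (h2 : ∀ i j, B i j = B j i)
    (hr : B.rank ≤ 4) (hn : n ≤ B.rank + 2) : Sol ⊥ (gsp B) := by
  obtain ⟨r, d, P, P', Q, Q', Ω, hrr, hrd, h3, h4, h5, h6, h7, h8⟩ := exists_split B (by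
    ext i j
    exact (h2 i j).symm)
  refine (sol_blk h3 ?_ (sol_top_of_le_two (by omega))).mono (gsp_le_blk h3 h4 h5 h6 h8)
  have hΩ2 : ∀ i j, Ω i j = Ω j i := by
    have e : Ωᵀ = Ω := by
      rw [h7, Matrix.transpose_mul, Matrix.transpose_mul, Matrix.transpose_transpose,
        Matrix.mul_assoc]
      have : Bᵀ = B := by
        ext i j
        exact (h2 i j).symm
      rw [this]
    intro i j
    conv_lhs => rw [← e]
    rfl
  have hΩ1 : ∀ i, Ω i i = 0 := by
    intro i
    have e1 : Ω i i = ∑ a, ∑ b, P' a i * B a b * P' b i := by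
      rw [h7, Matrix.mul_apply]
      simp only [Matrix.mul_apply, Matrix.transpose_apply, Finset.sum_mul]
      rw [Finset.sum_comm]
    rw [e1]
    set F : Fin n → Fin n → κ := fun a b => P' a i * B a b * P' b i with hF
    have hsym : ∀ a b, F a b = F b a := fun a b => by
      rw [hF]
      show P' a i * B a b * P' b i = P' b i * B b a * P' a i
      rw [h2 a b]
      ring
    have hdiag : ∀ a, F a a = 0 := fun a => by
      rw [hF]
      show P' a i * B a a * P' a i = 0
      rw [h1, mul_zero, zero_mul]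
    show ∑ a, ∑ b, F a b = 0
    rw [← Finset.sum_product']
    refine Finset.sum_involution (fun p _ => (p.2, p.1)) ?_ ?_ ?_ ?_
    · rintro ⟨a, b⟩ -
      show F a b + F b a = 0
      rw [hsym a b, CharTwo.add_self_eq_zero]
    · rintro ⟨a, b⟩ - h hab
      apply h
      have : a = b := (Prod.mk.inj hab).2
      show F a b = 0
      rw [this]
      exact hdiag b
    · rintro ⟨a, b⟩ -
      exact Finset.mem_univ _
    · rintro ⟨a, b⟩ -
      rfl
  have hr4 : r ≤ 4 := by omega
  clear h6 h7 h3 h4 h5 hrd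
  obtain h | h | h : r ≤ 2 ∨ r = 3 ∨ r = 4 := by omega
  · exact (sol_top_of_le_two h).mono le_top
  · subst h
    exact absurd h8 (det_alt_three hΩ1 hΩ2)
  · subst h
    exact sol_gsp_four hΩ1 hΩ2 h8

end

end Pool.Agent.Run7.h735.FM
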