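import Pool.Agent.R417.FK.Crit
import Pool.Agent.Run7.h735.FM.Split

/-!
# The criterion for solvable Lie algebras (helper735, the proof of `mainS` is a modification of the
proof of `mainN` by helper417)
-/

set_option autoImplicit false

namespace Pool.Agent.Run7.h735.FM

open NumberField Matrix IsLocalRing Pool.Agent.W569.FM Pool.Agent.TH831.NA Pool.Agent.W571.FM
  Pool.Agent.TH831.OE Pool.Agent.R417.FK

section
variable {K : Type} [Field K] [NumberField K]

/-- there are no infinitesimal solutions at level `k` with values in `L` on inertia -/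
theorem crit_sol {p : ℕ} [hp : Fact p.Prime] (hK : NoUr K p) {n k : ℕ} {κ : Type} [Field κ]
    [CharP κ p] {Z L : Submodule κ (Matrix (Fin n) (Fin n) κ)} (hL : Sol Z L)
    (φ : GF K →* Multiplicative (Matrix (Fin n) (Fin n) κ))
    (hopen : IsOpen (φ.ker : Set (GF K)))
    (hbad : ∀ P : Ideal (OO K), P.IsMaximal → ¬ ((p : OO K) ∉ P ∧ Lev p k P) →
      ∀ τ, InInertia P τ → φ τ = 1)
    (hgood : ∀ P : Ideal (OO K), P.IsMaximal → (p : OO K) ∉ P → Lev p k P →
      ∀ τ, InInertia P τ → (Multiplicative.toAdd (φ τ) ∈ L ∧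
        (Multiplicative.toAdd (φ τ) ∈ Z → Multiplicative.toAdd (φ τ) = 0)) ∧
      ∀ σ, FrobAt (nm P) P σ →
      Multiplicative.toAdd (φ σ) * Multiplicative.toAdd (φ τ) -
        Multiplicative.toAdd (φ τ) * Multiplicative.toAdd (φ σ) =
        (((nm P - 1) / p ^ k : ℕ) : κ) • Multiplicative.toAdd (φ τ)) (g : GF K) : φ g = 1 := by
  set G : Set (Matrix (Fin n) (Fin n) κ) := {b | ∃ P : Ideal (OO K), P.IsMaximal ∧
    (p : OO K) ∉ P ∧ Lev p k P ∧ ∃ τ, InInertia P τ ∧ b = Multiplicative.toAdd (φ τ)} with hG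
  set W := Submodule.span κ G with hW
  -- generation
  have hgen : ∀ g, Multiplicative.toAdd (φ g) ∈ W := by
    intro g
    let f : GF K →* Multiplicative (Matrix (Fin n) (Fin n) κ ⧸ W) :=
      (AddMonoidHom.toMultiplicative (Submodule.mkQ W).toAddMonoidHom).comp φ
    have hf : ∀ g, f g = 1 ↔ Multiplicative.toAdd (φ g) ∈ W := by
      intro g
      have : f g = Multiplicative.ofAdd (Submodule.mkQ W (Multiplicative.toAdd (φ g))) := rfl
      rw [this, ofAdd_eq_one, Submodule.mkQ_apply, Submodule.Quotient.mk_eq_zero]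
    rw [← hf]
    refine gen_p hK f ?_ ?_ ?_ g
    · rintro ⟨_, g, rfl⟩
      refine ⟨1, ?_⟩
      apply Subtype.ext
      show f g ^ (p ^ 1) = 1
      rw [← map_pow, hf, map_pow, toAdd_pow, pow_one, ← Nat.cast_smul_eq_nsmul κ, CharP.cast_eq_zero,
        zero_smul]
      exact W.zero_mem
    · refine Subgroup.isOpen_mono (H₁ := φ.ker) (fun g hg => ?_) hopen
      rw [MonoidHom.mem_ker] at hg ⊢
      rw [hf, hg, toAdd_one]
      exact W.zero_mem
    · intro P hP τ hτ
      rw [hf]
      by_cases h : (p : OO K) ∉ P ∧ Lev p k P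
      · exact Submodule.subset_span ⟨P, hP, h.1, h.2, τ, hτ, rfl⟩
      · rw [hbad P hP h τ hτ, toAdd_one]
        exact W.zero_mem
  have hzero : W = ⊥ := by
    refine hL.zero G ?_ ?_ ?_
    · rw [Submodule.span_le]
      rintro _ ⟨P, hP, hpP, hk, τ, hτ, rfl⟩
      exact (hgood P hP hpP hk τ hτ).1.1
    · rintro _ ⟨P, hP, hpP, hk, τ, hτ, rfl⟩
      obtain ⟨σ, hσ⟩ := exists_frob hP
      refine ⟨_, hgen σ, _, ?_, (hgood P hP hpP hk τ hτ).2 σ hσ⟩
      obtain ⟨-, hu⟩ := lev_data hp.out hP hk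
      rw [Ne, CharP.cast_eq_zero_iff κ p]
      exact hu
    · rintro _ ⟨P, hP, hpP, hk, τ, hτ, rfl⟩
      exact (hgood P hP hpP hk τ hτ).1.2
  have h1 := hgen g
  rw [hzero, Submodule.mem_bot] at h1
  exact Multiplicative.toAdd.injective (h1.trans toAdd_one.symm)

variable {p : ℕ} [hp : Fact p.Prime] {A : Type} [CommRing A] [IsLocalRing A]
  [IsNoetherianRing A] {n : ℕ}

/-- **the criterion** -/
theorem mainS {ρ : GF K →* GL (Fin n) A}
    (hpA : (p : A) ∈ maximalIdeal A) (hreg : ∀ a : A, (p : A) * a = 0 → a = 0)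
    (hcts : ∀ N : ℕ, ∀ᶠ g in nhds (1 : GF K), MJ (maximalIdeal A ^ N)
      ((ρ g : Matrix (Fin n) (Fin n) A) - 1)) (hG : Good ρ) (hK : NoUr K p)
    {m : ℕ} (hm1 : 1 ≤ m) (hpm : 2 < p ^ m)
    (hur : ∀ P : Ideal (OO K), P.IsMaximal → (p : OO K) ∈ P → ∀ τ, InInertia P τ → ρ τ = 1)
    (hI : ∀ P : Ideal (OO K), P.IsMaximal → (p : OO K) ∉ P → ∀ τ, InInertia P τ → ∀ k : ℕ,
      k ≤ m ∨ p ^ k ∣ nm P - 1 → ∀ i j, (p : A) ^ k ∣ ((ρ τ : Matrix (Fin n) (Fin n) A) - 1) i j)
    {Z L : ℕ → Submodule (ResidueField A) (Matrix (Fin n) (Fin n) (ResidueField A))}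
    (hL : ∀ k, m ≤ k → Sol (Z k) (L k))
    (hIL : ∀ P : Ideal (OO K), P.IsMaximal → (p : OO K) ∉ P → ∀ τ, InInertia P τ → ∀ k : ℕ,
      m ≤ k → Lev p k P → ∀ a : Matrix (Fin n) (Fin n) A,
      (ρ τ : Matrix (Fin n) (Fin n) A) - 1 = ((p : A) ^ k) • a →
        a.map (residue A) ∈ L k ∧ (a.map (residue A) ∈ Z k → a.map (residue A) = 0))
    (g : GF K) : ρ g = 1 := by
  classical
  -- the image is trivial modulo `p ^ m`
  have h4 : ∀ g, MJ (Ideal.span {(p : A) ^ m}) ((ρ g : Matrix (Fin n) (Fin n) A) - 1) := by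
    refine cong_of_good hG _ fun P hP τ hτ => ?_
    intro i j
    rw [Ideal.mem_span_singleton]
    by_cases h2P : (p : OO K) ∈ P
    · rw [hur P hP h2P τ hτ, Units.val_one, sub_self]
      exact dvd_zero _
    · exact hI P hP h2P τ hτ m (Or.inl le_rfl) i j
  have hm : ∀ g, MJ (maximalIdeal A) ((ρ g : Matrix (Fin n) (Fin n) A) - 1) := fun g =>
    (h4 g).mono (by
      rw [Ideal.span_singleton_le_iff_mem]
      exact Ideal.pow_mem_of_mem _ hpA m hm1)
  set I := I0 ρ with hIdef
  have hIm : I ≤ maximalIdeal A := I0_le hm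
  set J := maximalIdeal A * I with hJ
  have hdata : ∀ (P : Ideal (OO K)) (τ : GF K) (e : ℕ), P.IsMaximal → (p : OO K) ∉ P →
      InInertia P τ → (e ≤ m ∨ p ^ e ∣ nm P - 1) → ∃ a : Matrix (Fin n) (Fin n) A,
        (ρ τ : Matrix (Fin n) (Fin n) A) - 1 = ((p : A) ^ e) • a := by
    intro P τ e hP hpP hτ he
    choose a ha using fun i j => hI P hP hpP τ hτ e he i j
    refine ⟨Matrix.of a, ?_⟩
    ext i j
    rw [ha i j]
    rfl
  have hlow : ∀ (P : Ideal (OO K)) (τ : GF K) (k : ℕ), P.IsMaximal → (p : OO K) ∉ P →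
      InInertia P τ → Lev p k P → k < m → MJ J ((ρ τ : Matrix (Fin n) (Fin n) A) - 1) := by
    intro P τ k hP hpP hτ hk hkm
    obtain ⟨a, ha⟩ := hdata P τ m hP hpP hτ (Or.inl le_rfl)
    obtain ⟨hq, hu⟩ := lev_data hp.out hP hk
    obtain ⟨σ, hσ⟩ := exists_frob hP
    obtain ⟨-, W, h1, h2⟩ := rel_at_nil hpA hreg hcts hm hP hpP hτ hm1 hpm hq a
      (sub_eq_iff_eq_add'.1 ha) hσ
    exact small_level hpA hkm (isUnit_nat (p := p) hpA hu) ha h2 h1 (mem_I0 ρ σ) (mem_I0 ρ τ)
  -- induction on the level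
  have key : ∀ k : ℕ, ∀ (P : Ideal (OO K)) (τ : GF K), P.IsMaximal → (p : OO K) ∉ P →
      InInertia P τ → Lev p k P → MJ J ((ρ τ : Matrix (Fin n) (Fin n) A) - 1) := by
    intro k
    induction k using Nat.strong_induction_on with
    | _ k ih =>
      intro P τ hP hpP hτ hk
      by_cases hkm : k < m
      · exact hlow P τ k hP hpP hτ hk hkm
      push Not at hkm
      have hk1 : 1 ≤ k := hm1.trans hkm
      have hpk : 2 < p ^ k := lt_of_lt_of_le hpm (Nat.pow_le_pow_right hp.out.pos hkm)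
      by_contra hbad
      -- all level `k` matrices
      have hgen : ∀ (P' : Ideal (OO K)) (τ' σ' : GF K) (a : Matrix (Fin n) (Fin n) A),
          P'.IsMaximal → (p : OO K) ∉ P' → InInertia P' τ' → Lev p k P' → FrobAt (nm P') P' σ' →
          (ρ τ' : Matrix (Fin n) (Fin n) A) - 1 = ((p : A) ^ k) • a →
          IsNilpotent a ∧ MJ J (((((nm P' - 1) / p ^ k : ℕ)) : A) •
            ((ρ τ' : Matrix (Fin n) (Fin n) A) - 1) -
            (((ρ σ' : Matrix (Fin n) (Fin n) A) - 1) * a -
              a * ((ρ σ' : Matrix (Fin n) (Fin n) A) - 1))) := by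
        intro P' τ' σ' a hP' hpP' hτ' hk' hσ' ha
        obtain ⟨hq, hu⟩ := lev_data hp.out hP' hk'
        obtain ⟨hnil, W, h1, h2⟩ := rel_at_nil hpA hreg hcts hm hP' hpP' hτ' hk1 hpk hq a
          (sub_eq_iff_eq_add'.1 ha) hσ'
        exact ⟨hnil, exact_level ha h2 h1 (mem_I0 ρ τ')⟩
      obtain ⟨a, ha⟩ := hdata P τ k hP hpP hτ (Or.inr hk.1)
      obtain ⟨σ, hσ⟩ := exists_frob hP
      obtain ⟨-, hrel⟩ := hgen P τ σ a hP hpP hτ hk hσ ha
      obtain ⟨hq, hu⟩ := lev_data hp.out hP hk
      have hau : ∃ i j, IsUnit (a i j) := by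
        by_contra hcon
        push Not at hcon
        have ham : MJ (maximalIdeal A) a := fun i j => hcon i j
        apply hbad
        apply MJ_unit (isUnit_nat (p := p) hpA hu)
        have h5 : MJ J (((ρ σ : Matrix (Fin n) (Fin n) A) - 1) * a -
            a * ((ρ σ : Matrix (Fin n) (Fin n) A) - 1)) := by
          refine MJ_sub ?_ (ham.mul (mem_I0 ρ σ))
          rw [hJ, mul_comm]
          exact (mem_I0 ρ σ).mul ham
        have h6 := hrel.add h5
        rwa [sub_add_cancel] at h6
      obtain ⟨i0, j0, hij⟩ := hau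
      have hpI : (p : A) ^ k ∈ I := by
        have h5 := mem_I0 ρ τ i0 j0
        rw [ha, Matrix.smul_apply, smul_eq_mul, mul_comm] at h5
        exact (Ideal.unit_mul_mem_iff_mem _ hij).1 h5
      have hpJ : (p : A) ^ k ∉ J := by
        intro h5
        apply hbad
        rw [ha]
        exact fun i j => Ideal.mul_mem_right _ _ h5
      obtain ⟨f, hfadd, hfmul, hfJ, hf1⟩ := exists_functional hpI hpJ
      have hchar : CharP (ResidueField A) p := by
        rw [CharP.charP_iff_prime_eq_zero hp.out, ← map_natCast (residue A), residue_eq_zero_iff]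
        exact hpA
      have hf0 : f 0 = 0 := hfJ 0 (Ideal.zero_mem _)
      -- the homomorphism
      let φ : GF K →* Multiplicative (Matrix (Fin n) (Fin n) (ResidueField A)) :=
        MonoidHom.mk' (fun g => Multiplicative.ofAdd (Matrix.of fun i j =>
          f (((ρ g : Matrix (Fin n) (Fin n) A) - 1) i j))) (by
          intro x y
          rw [← ofAdd_add]
          congr 1
          ext i j
          rw [Matrix.add_apply, Matrix.of_apply, Matrix.of_apply, Matrix.of_apply]
          have e1 : ((ρ (x * y) : GL (Fin n) A) : Matrix (Fin n) (Fin n) A) - 1 =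
              (((ρ x : Matrix (Fin n) (Fin n) A) - 1) + ((ρ y : Matrix (Fin n) (Fin n) A) - 1)) +
              ((ρ x : Matrix (Fin n) (Fin n) A) - 1) * ((ρ y : Matrix (Fin n) (Fin n) A) - 1) := by
            rw [map_mul, Units.val_mul]
            noncomm_ring
          have e2 : (((ρ x : Matrix (Fin n) (Fin n) A) - 1) *
              ((ρ y : Matrix (Fin n) (Fin n) A) - 1)) i j ∈ J := ((hm x).mul (mem_I0 ρ y)) i j
          rw [e1, Matrix.add_apply, Matrix.add_apply,
            hfadd _ (I.add_mem (mem_I0 ρ x i j) (mem_I0 ρ y i j)) _ (Ideal.mul_le_right e2),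
            hfadd _ (mem_I0 ρ x i j) _ (mem_I0 ρ y i j), hfJ _ e2, add_zero])
      have hφ : ∀ g i j, Multiplicative.toAdd (φ g) i j =
          f (((ρ g : Matrix (Fin n) (Fin n) A) - 1) i j) := fun g i j => rfl
      have hφ1 : ∀ g, MJ J ((ρ g : Matrix (Fin n) (Fin n) A) - 1) → φ g = 1 := by
        intro g hg
        apply Multiplicative.toAdd.injective
        ext i j
        rw [hφ, toAdd_one, Matrix.zero_apply]
        exact hfJ _ (hg i j)
      have hφa : ∀ (g : GF K) (b : Matrix (Fin n) (Fin n) A),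
          (ρ g : Matrix (Fin n) (Fin n) A) - 1 = ((p : A) ^ k) • b →
          Multiplicative.toAdd (φ g) = (residue A).mapMatrix b := by
        intro g b hb
        ext i j
        rw [hφ, hb, Matrix.smul_apply, smul_eq_mul, mul_comm, hfmul _ _ hpI, hf1, mul_one]
        rfl
      have hfin := crit_sol (k := k) hK (hL k hkm) φ ?_ ?_ ?_ τ
      · have h5 := hφa τ a ha
        rw [hfin, toAdd_one] at h5
        have h6 := congrFun (congrFun h5 i0) j0
        rw [Matrix.zero_apply, RingHom.mapMatrix_apply, Matrix.map_apply] at h6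
        have h7 : a i0 j0 ∈ maximalIdeal A := (residue_eq_zero_iff _).1 h6.symm
        exact h7 hij
      · obtain ⟨N, hN⟩ := artin_rees I
        apply Subgroup.isOpen_of_mem_nhds _ (g := (1 : GF K))
        filter_upwards [hcts N] with g hg
        exact hφ1 g fun i j => hN ⟨hg i j, mem_I0 ρ g i j⟩
      · intro P' hP' hnot τ' hτ'
        by_cases hpP' : (p : OO K) ∈ P'
        · apply hφ1
          rw [hur P' hP' hpP' τ' hτ', Units.val_one, sub_self]
          exact fun i j => Ideal.zero_mem _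
        · obtain ⟨k', hk'⟩ := exists_lev hp.out hP'
          rcases lt_trichotomy k' k with h | h | h
          · exact hφ1 _ (ih k' h P' τ' hP' hpP' hτ' hk')
          · exact absurd ⟨hpP', h ▸ hk'⟩ hnot
          · apply hφ1
            obtain ⟨b, hb⟩ := hdata P' τ' k' hP' hpP' hτ' (Or.inr hk'.1)
            obtain ⟨d, rfl⟩ : ∃ d, k' = k + (d + 1) := ⟨k' - k - 1, by omega⟩
            rw [hb, pow_add, mul_comm, mul_smul]
            exact MJ_smul_mem (Ideal.pow_mem_of_mem _ hpA _ (Nat.succ_pos d))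
              (fun i j => Ideal.mul_mem_right _ _ hpI)
      · intro P' hP' hpP' hk' τ' hτ'
        obtain ⟨b, hb⟩ := hdata P' τ' k hP' hpP' hτ' (Or.inr hk'.1)
        have hb' := hφa τ' b hb
        refine ⟨?_, fun σ' hσ' => ?_⟩
        · rw [hb']
          exact hIL P' hP' hpP' τ' hτ' k hkm hk' b hb
        · obtain ⟨hnil, hrel'⟩ := hgen P' τ' σ' b hP' hpP' hτ' hk' hσ' hb
          ext i j
          have h5 := hfJ _ (hrel' i j)
          have hsum : ∀ (s : Finset (Fin n)) (x : Fin n → A), (∀ l ∈ s, x l ∈ I) →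
              f (∑ l ∈ s, x l) = ∑ l ∈ s, f (x l) := by
            intro s x
            induction s using Finset.induction_on with
            | empty => intro _; rw [Finset.sum_empty, Finset.sum_empty, hf0]
            | insert l s hl ihs =>
              intro hx
              rw [Finset.sum_insert hl, Finset.sum_insert hl,
                hfadd _ (hx l (Finset.mem_insert_self l s)) _
                (Ideal.sum_mem _ fun t ht => hx t (Finset.mem_insert_of_mem ht)),
                ihs fun t ht => hx t (Finset.mem_insert_of_mem ht)]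
          have hfsub : ∀ x ∈ I, ∀ y ∈ I, f (x - y) = f x - f y := by
            intro x hx y hy
            have h6 := hfadd (x - y) (I.sub_mem hx hy) y hy
            rw [sub_add_cancel] at h6
            rw [h6]
            ring
          have hFb : (((ρ σ' : Matrix (Fin n) (Fin n) A) - 1) * b) i j ∈ I :=
            (mem_I0 ρ σ').mul_right b i j
          have hbF : (b * ((ρ σ' : Matrix (Fin n) (Fin n) A) - 1)) i j ∈ I :=
            MJ_mul_left (mem_I0 ρ σ') b i j
          have e1 : f ((((ρ σ' : Matrix (Fin n) (Fin n) A) - 1) * b) i j) =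
              (Multiplicative.toAdd (φ σ') * Multiplicative.toAdd (φ τ')) i j := by
            rw [Matrix.mul_apply, hsum _ _ fun l _ => I.mul_mem_right _ (mem_I0 ρ σ' i l),
              Matrix.mul_apply]
            refine Finset.sum_congr rfl fun l _ => ?_
            rw [mul_comm, hfmul _ _ (mem_I0 ρ σ' i l), hφ, hb', mul_comm]
            rfl
          have e2 : f ((b * ((ρ σ' : Matrix (Fin n) (Fin n) A) - 1)) i j) =
              (Multiplicative.toAdd (φ τ') * Multiplicative.toAdd (φ σ')) i j := by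
            rw [Matrix.mul_apply, hsum _ _ fun l _ => I.mul_mem_left _ (mem_I0 ρ σ' l j),
              Matrix.mul_apply]
            refine Finset.sum_congr rfl fun l _ => ?_
            rw [hfmul _ _ (mem_I0 ρ σ' l j), hb', hφ σ' l j]
            rfl
          rw [Matrix.sub_apply, ← e1, ← e2, Matrix.smul_apply, hφ, smul_eq_mul]
          have e0 : (((((nm P' - 1) / p ^ k : ℕ)) : A) • ((ρ τ' : Matrix (Fin n) (Fin n) A) - 1) -
              (((ρ σ' : Matrix (Fin n) (Fin n) A) - 1) * b -
                b * ((ρ σ' : Matrix (Fin n) (Fin n) A) - 1))) i j =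
              ((((nm P' - 1) / p ^ k : ℕ)) : A) * ((ρ τ' : Matrix (Fin n) (Fin n) A) - 1) i j -
              ((((ρ σ' : Matrix (Fin n) (Fin n) A) - 1) * b) i j -
                (b * ((ρ σ' : Matrix (Fin n) (Fin n) A) - 1)) i j) := rfl
          rw [e0, hfsub _ (I.mul_mem_left _ (mem_I0 ρ τ' i j)) _ (I.sub_mem hFb hbF),
            hfmul _ _ (mem_I0 ρ τ' i j), hfsub _ hFb _ hbF, map_natCast, sub_eq_zero] at h5
          exact h5.symm
  refine triv_of_le (I0_le fun g => ?_) g
  refine cong_of_good hG J (fun P hP τ hτ => ?_) g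
  by_cases hpP : (p : OO K) ∈ P
  · rw [hur P hP hpP τ hτ, Units.val_one, sub_self]
    exact fun i j => Ideal.zero_mem _
  · obtain ⟨k, hk⟩ := exists_lev hp.out hP
    exact key k P τ hP hpP hτ hk

end

end Pool.Agent.Run7.h735.FM
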