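import Pool.Agent.Run7.h735.FM.Crit

/-!
# General coefficient rings and bilinear forms (helper735, modelled on `R417/FK/Tor.lean`)
-/

set_option autoImplicit false

namespace Pool.Agent.Run7.h735.FM

open NumberField Matrix IsLocalRing Pool.Agent.W569.FM Pool.Agent.TH831.NA Pool.Agent.W571.FM
  Pool.Agent.TH831.OE Pool.Agent.R417.FK

/-- alternating matrices in characteristic two -/
theorem quad_zero {κ : Type} [Field κ] [CharP κ 2] {n : ℕ} {M : Matrix (Fin n) (Fin n) κ}
    (h1 : ∀ i, M i i = 0) (h2 : ∀ i j, M i j = M j i) (v : Fin n → κ) :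
    v ⬝ᵥ Matrix.mulVec M v = 0 := by
  have e1 : v ⬝ᵥ Matrix.mulVec M v = ∑ a, ∑ b, v a * (M a b * v b) := by
    simp only [dotProduct, Matrix.mulVec, Finset.mul_sum]
  rw [e1, ← Finset.sum_product']
  refine Finset.sum_involution (fun p _ => (p.2, p.1)) ?_ ?_ ?_ ?_
  · rintro ⟨a, b⟩ -
    show v a * (M a b * v b) + v b * (M b a * v a) = 0
    rw [h2 a b, show v a * (M b a * v b) = v b * (M b a * v a) by ring, CharTwo.add_self_eq_zero]
  · rintro ⟨a, b⟩ - h hab
    apply h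
    have : a = b := (Prod.mk.inj hab).2
    show v a * (M a b * v b) = 0
    rw [this, h1, zero_mul, mul_zero]
  · rintro ⟨a, b⟩ -
    exact Finset.mem_univ _
  · rintro ⟨a, b⟩ -
    rfl

/-- alternating matrices of rank at most one in characteristic two -/
theorem alt_rank_one {κ : Type} [Field κ] {n : ℕ} {M : Matrix (Fin n) (Fin n) κ}
    (h1 : ∀ i, M i i = 0) (h2 : ∀ i j, M i j = M j i) (h3 : M.rank ≤ 1) : M = 0 := by
  ext i j
  by_contra h
  rw [Matrix.zero_apply] at h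
  have hdet : (M.submatrix ![i, j] ![i, j]).det ≠ 0 := by
    rw [Matrix.det_fin_two]
    simp only [Matrix.submatrix_apply, Matrix.cons_val_zero, Matrix.cons_val_one]
    rw [h1, h1, h2 j i]
    simpa using h
  have hu : IsUnit (M.submatrix ![i, j] ![i, j]) := by
    rw [Matrix.isUnit_iff_isUnit_det]
    exact isUnit_iff_ne_zero.2 hdet
  have hr := Matrix.rank_of_isUnit _ hu
  have hle : (M.submatrix ![i, j] ![i, j]).rank ≤ M.rank := Matrix.rank_submatrix_le _ _ _
  rw [hr, Fintype.card_fin] at hle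
  omega

/-- leading terms of similitudes -/
theorem form_lead {R : Type} [CommRing R] {κ : Type} [Field κ] {n : ℕ} (F : R →+* κ) {q : R}
    (hq : ∀ a, q * a = 0 → a = 0) (hFq : F q = 0) {x B : Matrix (Fin n) (Fin n) R} {c : R}
    (hx : xᵀ * B * x = c • B) {a : Matrix (Fin n) (Fin n) R} (ha : x - 1 = q • a)
    (hB : B.map F = 0 ∨ ∃ i j, IsUnit (B i j)) : a.map F ∈ gsp (B.map F) := by
  rcases hB with hB | ⟨i, j, hij⟩
  · rw [hB]
    exact ⟨0, by simp⟩
  have hx1 : x = 1 + q • a := by rw [← ha]; abel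
  set E := aᵀ * B + B * a + q • (aᵀ * B * a) with hE
  have h1 : q • E = (c - 1) • B := by
    rw [sub_smul, one_smul, ← hx, hx1, hE, Matrix.transpose_add, Matrix.transpose_one,
      Matrix.transpose_smul]
    simp only [add_mul, mul_add, one_mul, mul_one, smul_mul_assoc, mul_smul_comm, smul_add]
    abel
  obtain ⟨v, hv⟩ := hij.exists_right_inv
  have h2 : c - 1 = q * (E i j * v) := by
    have h3 := congrFun (congrFun h1 i) j
    rw [Matrix.smul_apply, Matrix.smul_apply, smul_eq_mul, smul_eq_mul] at h3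
    calc c - 1 = (c - 1) * (B i j * v) := by rw [hv, mul_one]
      _ = (c - 1) * B i j * v := by ring
      _ = q * E i j * v := by rw [h3]
      _ = q * (E i j * v) := by ring
  have h4 : E = (E i j * v) • B := by
    ext i' j'
    have h5 := congrFun (congrFun h1 i') j'
    rw [Matrix.smul_apply, Matrix.smul_apply, smul_eq_mul, smul_eq_mul, h2] at h5
    rw [Matrix.smul_apply, smul_eq_mul, ← sub_eq_zero]
    apply hq
    rw [mul_sub, h5]
    ring
  refine ⟨F (E i j * v), ?_⟩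
  have h6 : E.map F = F (E i j * v) • B.map F := by
    conv_lhs => rw [h4]
    ext i' j'
    simp
  rw [← h6, hE]
  have h7 : (aᵀ * B + B * a + q • (aᵀ * B * a)).map F =
      (aᵀ * B).map F + (B * a).map F + (q • (aᵀ * B * a)).map F := by
    rw [Matrix.map_add _ (map_add F), Matrix.map_add _ (map_add F)]
  have h8 : (q • (aᵀ * B * a)).map F = 0 := by
    ext i' j'
    rw [Matrix.map_apply, Matrix.smul_apply, smul_eq_mul, map_mul, hFq, zero_mul,
      Matrix.zero_apply]
  rw [h7, h8, add_zero, Matrix.map_mul, Matrix.map_mul, Matrix.transpose_map]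

section
variable {K : Type} [Field K] [NumberField K] {p : ℕ} [hp : Fact p.Prime] {A : Type} [CommRing A]
  [IsLocalRing A] [IsNoetherianRing A] {n : ℕ}

/-- the difference from the identity is killed by a power of `p` -/
theorem main_torS {ρ : GF K →* GL (Fin n) A} (hpA : (p : A) ∈ maximalIdeal A)
    (hcts : ∀ N : ℕ, ∀ᶠ g in nhds (1 : GF K), MJ (maximalIdeal A ^ N)
      ((ρ g : Matrix (Fin n) (Fin n) A) - 1)) (hG : Good ρ) (hK : NoUr K p)
    {m : ℕ} (hm1 : 1 ≤ m) (hpm : 2 < p ^ m)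
    (hur : ∀ P : Ideal (OO K), P.IsMaximal → (p : OO K) ∈ P → ∀ τ, InInertia P τ → ρ τ = 1)
    (hI : ∀ P : Ideal (OO K), P.IsMaximal → (p : OO K) ∉ P → ∀ τ, InInertia P τ → ∀ k : ℕ,
      k ≤ m ∨ p ^ k ∣ nm P - 1 → ∀ i j, (p : A) ^ k ∣ ((ρ τ : Matrix (Fin n) (Fin n) A) - 1) i j)
    {Z L : ℕ → Submodule (ResidueField A) (Matrix (Fin n) (Fin n) (ResidueField A))}
    (hL : ∀ k, m ≤ k → Sol (Z k) (L k))
    (hTL : ∀ P : Ideal (OO K), P.IsMaximal → (p : OO K) ∉ P → ∀ τ, InInertia P τ → ∀ k : ℕ,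
      m ≤ k → Lev p k P → ∀ a : Matrix (Fin n) (Fin n) (A ⧸ satI p (⊥ : Ideal A)),
      ((ρ τ : Matrix (Fin n) (Fin n) A) - 1).map (Ideal.Quotient.mk (satI p (⊥ : Ideal A))) =
        ((p : A ⧸ satI p (⊥ : Ideal A)) ^ k) • a →
      (∀ b : A ⧸ satI p (⊥ : Ideal A), (p : A ⧸ satI p (⊥ : Ideal A)) ^ k * b = 0 → b = 0) →
      ∀ F : A ⧸ satI p (⊥ : Ideal A) →+* ResidueField A,
        F.comp (Ideal.Quotient.mk (satI p (⊥ : Ideal A))) = residue A →
        a.map F ∈ L k ∧ (a.map F ∈ Z k → a.map F = 0))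
    (g : GF K) : MJ (satI p (⊥ : Ideal A)) ((ρ g : Matrix (Fin n) (Fin n) A) - 1) := by
  set T : Ideal A := satI p (⊥ : Ideal A) with hT
  by_cases hTt : T = ⊤
  · intro i j
    rw [hTt]
    exact Submodule.mem_top
  have hnt : Nontrivial (A ⧸ T) := Ideal.Quotient.nontrivial_iff.2 hTt
  have hloc : IsLocalRing (A ⧸ T) :=
    IsLocalRing.of_surjective' _ Ideal.Quotient.mk_surjective
  set π := Ideal.Quotient.mk T with hπ
  have hπl : IsLocalHom π := IsLocalHom.of_surjective _ Ideal.Quotient.mk_surjective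
  set ρ' : GF K →* GL (Fin n) (A ⧸ T) := (GeneralLinearGroup.map π).comp ρ with hρ'
  have hent : ∀ (x : GL (Fin n) A) (i j : Fin n),
      ((GeneralLinearGroup.map π x : GL (Fin n) (A ⧸ T)) - 1 : Matrix (Fin n) (Fin n) (A ⧸ T)) i j =
        π (((x : Matrix (Fin n) (Fin n) A) - 1) i j) := by
    intro x i j
    rw [Matrix.sub_apply, Matrix.sub_apply, map_sub]
    congr 1
    by_cases hij : i = j
    · subst hij
      rw [Matrix.one_apply_eq, Matrix.one_apply_eq, map_one]
    · rw [Matrix.one_apply_ne hij, Matrix.one_apply_ne hij, map_zero]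
  have hMJ : ∀ (x : GL (Fin n) A) (N : ℕ), MJ (maximalIdeal A ^ N)
      ((x : Matrix (Fin n) (Fin n) A) - 1) → MJ (maximalIdeal (A ⧸ T) ^ N)
      ((GeneralLinearGroup.map π x : GL (Fin n) (A ⧸ T)) - 1 :
        Matrix (Fin n) (Fin n) (A ⧸ T)) := by
    intro x N hx i j
    rw [hent]
    exact map_max_pow π (hx i j)
  have hreg : ∀ a : A ⧸ T, (p : A ⧸ T) * a = 0 → a = 0 := by
    intro a ha
    obtain ⟨b, rfl⟩ := Ideal.Quotient.mk_surjective a
    have h1 : π (p * b) = 0 := by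
      rw [map_mul, map_natCast]
      exact ha
    obtain ⟨j, hj⟩ := Ideal.Quotient.eq_zero_iff_mem.1 h1
    refine Ideal.Quotient.eq_zero_iff_mem.2 ⟨j + 1, ?_⟩
    rw [pow_succ, mul_assoc]
    exact hj
  -- the residue fields
  have hbij : Function.Bijective (ResidueField.map π) := by
    refine ⟨(ResidueField.map π).injective, ?_⟩
    intro x
    obtain ⟨y, rfl⟩ := residue_surjective x
    obtain ⟨z, rfl⟩ := Ideal.Quotient.mk_surjective y
    exact ⟨residue A z, ResidueField.map_residue π z⟩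
  set e := (RingEquiv.ofBijective _ hbij).symm with he
  set ι : ResidueField (A ⧸ T) →+* ResidueField A := e.toRingHom with hι
  set F : A ⧸ T →+* ResidueField A := ι.comp (residue (A ⧸ T)) with hF
  have hFπ : F.comp π = residue A := by
    apply RingHom.ext
    intro z
    show e (residue (A ⧸ T) (π z)) = residue A z
    rw [← ResidueField.map_residue π z]
    exact (RingEquiv.ofBijective (ResidueField.map π) hbij).symm_apply_apply (residue A z)
  have hmapF : ∀ a : Matrix (Fin n) (Fin n) (A ⧸ T),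
      (a.map (residue (A ⧸ T))).map ι = a.map F := by
    intro a
    ext i j
    rfl
  have key := mainS (ρ := ρ') (A := A ⧸ T) (p := p) (m := m) ?_ hreg ?_ ?_ hK hm1 hpm ?_ ?_
    (fun k hk => (hL k hk).pull ι) ?_ g
  · intro i j
    have h1 := hent (ρ g) i j
    have h2 : (GeneralLinearGroup.map π (ρ g) : GL (Fin n) (A ⧸ T)) = 1 := key
    rw [h2, Units.val_one, sub_self, Matrix.zero_apply] at h1
    exact Ideal.Quotient.eq_zero_iff_mem.1 h1.symm
  · have h1 := map_max_pow π (N := 1) (a := (p : A)) (by rw [pow_one]; exact hpA)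
    rw [pow_one, map_natCast] at h1
    exact h1
  · intro N
    filter_upwards [hcts N] with g hg
    exact hMJ _ N hg
  · intro E _ φ N h hin
    exact hG E (φ.comp (GeneralLinearGroup.map π)) N (fun x hx => h _ (hMJ x N hx)) hin
  · intro P hP h2 τ hτ
    show GeneralLinearGroup.map π (ρ τ) = 1
    rw [hur P hP h2 τ hτ, map_one]
  · intro P hP h2 τ hτ k hk i j
    have h1 := map_dvd π (hI P hP h2 τ hτ k hk i j)
    rw [map_pow, map_natCast] at h1
    have h3 := hent (ρ τ) i j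
    rw [← h3] at h1
    exact h1
  · intro P hP h2 τ hτ k hmk hk a ha
    have h3 : ((ρ τ : Matrix (Fin n) (Fin n) A) - 1).map π = ((p : A ⧸ T) ^ k) • a := by
      rw [← ha]
      ext i j
      rw [Matrix.map_apply]
      exact (hent (ρ τ) i j).symm
    obtain ⟨h4, h5⟩ := hTL P hP h2 τ hτ k hmk hk a h3 (fun b hb => reg_pow hreg k hb) F hFπ
    rw [mem_pull, mem_pull, hmapF]
    refine ⟨h4, fun h6 => ?_⟩
    have h7 := h5 h6
    rw [← hmapF] at h7
    ext i j
    have h8 := congrFun (congrFun h7 i) j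
    rw [Matrix.map_apply, Matrix.zero_apply, map_eq_zero] at h8
    rw [h8, Matrix.zero_apply]

/-- **the final form** -/
theorem finalS {ρ : GF K →* GL (Fin n) A} (hpA : (p : A) ∈ maximalIdeal A)
    (hcts : ∀ N : ℕ, ∀ᶠ g in nhds (1 : GF K), MJ (maximalIdeal A ^ N)
      ((ρ g : Matrix (Fin n) (Fin n) A) - 1)) (hG : Good ρ) (hK : NoUr K p)
    {m : ℕ} (hpm : 2 < p ^ m)
    (hur : ∀ P : Ideal (OO K), P.IsMaximal → (p : OO K) ∈ P → ∀ τ, InInertia P τ → ρ τ = 1)
    (hI : ∀ P : Ideal (OO K), P.IsMaximal → (p : OO K) ∉ P → ∀ τ, InInertia P τ → ∀ k : ℕ,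
      k ≤ m ∨ p ^ k ∣ nm P - 1 → ∀ i j, (p : A) ^ k ∣ ((ρ τ : Matrix (Fin n) (Fin n) A) - 1) i j)
    {Z L : ℕ → Submodule (ResidueField A) (Matrix (Fin n) (Fin n) (ResidueField A))}
    (hL : ∀ k, m ≤ k → Sol (Z k) (L k))
    (hTL : ∀ P : Ideal (OO K), P.IsMaximal → (p : OO K) ∉ P → ∀ τ, InInertia P τ → ∀ k : ℕ,
      m ≤ k → Lev p k P → ∀ a : Matrix (Fin n) (Fin n) (A ⧸ satI p (⊥ : Ideal A)),
      ((ρ τ : Matrix (Fin n) (Fin n) A) - 1).map (Ideal.Quotient.mk (satI p (⊥ : Ideal A))) =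
        ((p : A ⧸ satI p (⊥ : Ideal A)) ^ k) • a →
      (∀ b : A ⧸ satI p (⊥ : Ideal A), (p : A ⧸ satI p (⊥ : Ideal A)) ^ k * b = 0 → b = 0) →
      ∀ F : A ⧸ satI p (⊥ : Ideal A) →+* ResidueField A,
        F.comp (Ideal.Quotient.mk (satI p (⊥ : Ideal A))) = residue A →
        a.map F ∈ L k ∧ (a.map F ∈ Z k → a.map F = 0)) :
    ((∀ a : A, (p : A) ^ (m + 1) * a = 0 → (p : A) ^ m * a = 0) → ∀ g, ρ g = 1) ∧
    (∀ S : Finset ℕ, (∀ l ∈ S, l.Prime) → UrO S ρ → (Set.range ρ).Finite) := by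
  have hm1 : 1 ≤ m := by
    rcases Nat.eq_zero_or_pos m with h | h
    · rw [h, pow_zero] at hpm
      omega
    · exact h
  have htor := main_torS hpA hcts hG hK hm1 hpm hur hI hL hTL
  have hcong0 : ∀ g, MJ (Ideal.span {(p : A) ^ m}) ((ρ g : Matrix (Fin n) (Fin n) A) - 1) := by
    refine cong_of_good hG _ fun P hP τ hτ => ?_
    intro i j
    rw [Ideal.mem_span_singleton]
    by_cases h2P : (p : OO K) ∈ P
    · rw [hur P hP h2P τ hτ, Units.val_one, sub_self]
      exact dvd_zero _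
    · exact hI P hP h2P τ hτ m (Or.inl le_rfl) i j
  constructor
  · intro hA g
    apply Units.ext
    rw [Units.val_one, ← sub_eq_zero]
    ext i j
    obtain ⟨b, hb⟩ := Ideal.mem_span_singleton.1 (hcong0 g i j)
    obtain ⟨e, he⟩ := htor g i j
    have he' : (p : A) ^ (m + e) * b = 0 := by
      rw [hb, Ideal.mem_bot] at he
      rw [pow_add, mul_comm ((p : A) ^ m), mul_assoc]
      exact he
    have hdesc : ∀ e : ℕ, (p : A) ^ (m + e) * b = 0 → (p : A) ^ m * b = 0 := by
      intro e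
      induction e with
      | zero => intro h; simpa using h
      | succ e ih =>
        intro h
        apply ih
        have h1 := hA (p ^ e * b) (by
          rw [← mul_assoc, ← pow_add]
          rw [show m + 1 + e = m + (e + 1) by ring]
          exact h)
        rw [← mul_assoc, ← pow_add] at h1
        exact h1
    rw [hb, Matrix.zero_apply]
    exact hdesc e he'
  · intro S hS hurS
    have hS' : ∀ l ∈ S.erase p, l.Prime ∧ l ≠ p := fun l hl =>
      ⟨hS l (Finset.mem_of_mem_erase hl), Finset.ne_of_mem_erase hl⟩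
    obtain ⟨T, hT1, hT2⟩ := exists_T hK (S.erase p) hS'
    refine fin_imageK (p := p) hpA (m := m) hpm hT1 hT2 hcts ?_ ?_ htor
    · intro P hP hPS τ hτ
      by_cases h2P : (p : OO K) ∈ P
      · exact hur P hP h2P τ hτ
      · refine hurS P hP (fun l hl => ?_) τ hτ
        by_cases hl2 : l = p
        · rw [hl2]
          exact h2P
        · exact hPS l (Finset.mem_erase.2 ⟨hl2, hl⟩)
    · intro g
      choose b hb using fun i j => Ideal.mem_span_singleton.1 (hcong0 g i j)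
      refine ⟨Matrix.of b, ?_⟩
      rw [← sub_eq_iff_eq_add']
      ext i j
      rw [hb, Matrix.smul_apply, Matrix.of_apply, smul_eq_mul]

/-- leading terms in a given space -/
theorem lead_of {ρ : GF K →* GL (Fin n) A} {m : ℕ}
    {Z L : ℕ → Submodule (ResidueField A) (Matrix (Fin n) (Fin n) (ResidueField A))}
    (hIL : ∀ P : Ideal (OO K), P.IsMaximal → (p : OO K) ∉ P → ∀ τ, InInertia P τ → ∀ k : ℕ,
      m ≤ k → Lev p k P → ∃ a : Matrix (Fin n) (Fin n) A,
      (ρ τ : Matrix (Fin n) (Fin n) A) - 1 = ((p : A) ^ k) • a ∧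
        a.map (residue A) ∈ L k ∧ (a.map (residue A) ∈ Z k → a.map (residue A) = 0)) :
    ∀ P : Ideal (OO K), P.IsMaximal → (p : OO K) ∉ P → ∀ τ, InInertia P τ → ∀ k : ℕ,
      m ≤ k → Lev p k P → ∀ a : Matrix (Fin n) (Fin n) (A ⧸ satI p (⊥ : Ideal A)),
      ((ρ τ : Matrix (Fin n) (Fin n) A) - 1).map (Ideal.Quotient.mk (satI p (⊥ : Ideal A))) =
        ((p : A ⧸ satI p (⊥ : Ideal A)) ^ k) • a →
      (∀ b : A ⧸ satI p (⊥ : Ideal A), (p : A ⧸ satI p (⊥ : Ideal A)) ^ k * b = 0 → b = 0) →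
      ∀ F : A ⧸ satI p (⊥ : Ideal A) →+* ResidueField A,
        F.comp (Ideal.Quotient.mk (satI p (⊥ : Ideal A))) = residue A →
        a.map F ∈ L k ∧ (a.map F ∈ Z k → a.map F = 0) := by
  intro P hP hpP τ hτ k hmk hk a ha hreg F hF
  obtain ⟨b, hb, h1, h2⟩ := hIL P hP hpP τ hτ k hmk hk
  have hab : a = b.map (Ideal.Quotient.mk (satI p (⊥ : Ideal A))) := by
    ext i j
    have h3 := congrFun (congrFun ha i) j
    rw [hb, Matrix.map_apply, Matrix.smul_apply, Matrix.smul_apply, smul_eq_mul, smul_eq_mul,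
      map_mul, map_pow, map_natCast] at h3
    rw [Matrix.map_apply, ← sub_eq_zero]
    apply hreg
    rw [mul_sub, ← h3, sub_self]
  have h4 : a.map F = b.map (residue A) := by
    rw [hab, ← hF]
    ext i j
    rfl
  rw [h4]
  exact ⟨h1, h2⟩

/-- leading terms for forms -/
theorem lead_form {ρ : GF K →* GL (Fin n) A} (hpA : (p : A) ∈ maximalIdeal A) {m : ℕ} (hm1 : 1 ≤ m)
    {B : Matrix (Fin n) (Fin n) A}
    (hB : ∀ g, ∃ c : A, (ρ g : Matrix (Fin n) (Fin n) A)ᵀ * B * (ρ g : Matrix (Fin n) (Fin n) A) =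
      c • B) :
    ∀ P : Ideal (OO K), P.IsMaximal → (p : OO K) ∉ P → ∀ τ, InInertia P τ → ∀ k : ℕ,
      m ≤ k → Lev p k P → ∀ a : Matrix (Fin n) (Fin n) (A ⧸ satI p (⊥ : Ideal A)),
      ((ρ τ : Matrix (Fin n) (Fin n) A) - 1).map (Ideal.Quotient.mk (satI p (⊥ : Ideal A))) =
        ((p : A ⧸ satI p (⊥ : Ideal A)) ^ k) • a →
      (∀ b : A ⧸ satI p (⊥ : Ideal A), (p : A ⧸ satI p (⊥ : Ideal A)) ^ k * b = 0 → b = 0) →
      ∀ F : A ⧸ satI p (⊥ : Ideal A) →+* ResidueField A,
        F.comp (Ideal.Quotient.mk (satI p (⊥ : Ideal A))) = residue A →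
        a.map F ∈ gsp (B.map (residue A)) := by
  intro P hP hpP τ hτ k hmk hk a ha hreg F hF
  set π := Ideal.Quotient.mk (satI p (⊥ : Ideal A)) with hπ
  obtain ⟨c, hc⟩ := hB τ
  have hBF : B.map (residue A) = (B.map π).map F := by
    rw [← hF]
    ext i j
    rfl
  rw [hBF]
  refine form_lead F (q := (p : A ⧸ satI p (⊥ : Ideal A)) ^ k) hreg ?_
    (x := (ρ τ : Matrix (Fin n) (Fin n) A).map π) (c := π c) ?_ ?_ ?_
  · have h1 : F (p : A ⧸ satI p (⊥ : Ideal A)) = 0 := by
      have h2 : F (π (p : A)) = residue A (p : A) := by rw [← hF]; rfl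
      rw [map_natCast] at h2
      rw [h2, residue_eq_zero_iff]
      exact hpA
    rw [map_pow, h1, zero_pow (by omega)]
  · rw [← Matrix.transpose_map, ← Matrix.map_mul, ← Matrix.map_mul, hc]
    ext i j
    simp
  · rw [← ha, Matrix.map_sub _ (map_sub π), Matrix.map_one _ (map_zero π) (map_one π)]
  · by_cases h : ∃ i j, IsUnit (B i j)
    · obtain ⟨i, j, hij⟩ := h
      exact Or.inr ⟨i, j, hij.map π⟩
    · left
      push Not at h
      rw [← hBF]
      ext i j
      rw [Matrix.map_apply, Matrix.zero_apply, residue_eq_zero_iff]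
      exact h i j

end

end Pool.Agent.Run7.h735.FM
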