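import Pool.Agent.Run7.h735.FM.Sol

/-!
# Symplectic similitude Lie algebras in characteristic two (helper735)
-/

set_option autoImplicit false

namespace Pool.Agent.Run7.h735.FM

open Matrix

section small
variable {κ : Type} [Field κ]

theorem sol_top_of_le_one {n : ℕ} (h : n ≤ 1) :
    Sol ⊥ (⊤ : Submodule κ (Matrix (Fin n) (Fin n) κ)) := by
  refine Sol.step (L' := ⊥) (fun x _ y _ => ?_) (Sol.base le_rfl)
  rw [Submodule.mem_bot]
  obtain rfl | rfl : n = 0 ∨ n = 1 := by omega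
  · exact Subsingleton.elim _ _
  · ext i j
    fin_cases i
    fin_cases j
    simp [Matrix.mul_apply]
    ring

theorem sol_span_one {n : ℕ} :
    Sol ⊥ (Submodule.span κ {(1 : Matrix (Fin n) (Fin n) κ)}) := by
  refine Sol.step (L' := ⊥) (fun x hx y hy => ?_) (Sol.base le_rfl)
  obtain ⟨a, rfl⟩ := Submodule.mem_span_singleton.1 hx
  obtain ⟨b, rfl⟩ := Submodule.mem_span_singleton.1 hy
  rw [Submodule.mem_bot]
  simp [smul_smul, mul_comm]

variable [CharP κ 2]

theorem sol_gl_two : Sol ⊥ (⊤ : Submodule κ (Matrix (Fin 2) (Fin 2) κ)) := by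
  have h2 : (2 : κ) = 0 := CharTwo.two_eq_zero
  refine Sol.step (L' := LinearMap.ker (Matrix.traceLinearMap (Fin 2) κ κ)) (fun x _ y _ => ?_) ?_
  · rw [LinearMap.mem_ker, Matrix.traceLinearMap_apply, Matrix.trace_sub, Matrix.trace_mul_comm,
      sub_self]
  refine Sol.step (L' := Submodule.span κ {1}) (fun x hx y hy => ?_) sol_span_one
  rw [LinearMap.mem_ker, Matrix.traceLinearMap_apply, Matrix.trace_fin_two] at hx hy
  have hx' : x 0 0 = x 1 1 := by linear_combination hx - x 1 1 * h2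
  have hy' : y 0 0 = y 1 1 := by linear_combination hy - y 1 1 * h2
  rw [Submodule.mem_span_singleton]
  refine ⟨x 0 1 * y 1 0 - y 0 1 * x 1 0, ?_⟩
  ext i j
  fin_cases i <;> fin_cases j <;>
    simp [Matrix.mul_apply, Fin.sum_univ_two, hx', hy']
  · ring
  · ring
  · ring
  · linear_combination (x 0 1 * y 1 0 - y 0 1 * x 1 0) * h2

theorem sol_top_of_le_two {n : ℕ} (h : n ≤ 2) :
    Sol ⊥ (⊤ : Submodule κ (Matrix (Fin n) (Fin n) κ)) := by
  rcases Nat.lt_or_ge n 2 with h1 | h1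
  · exact sol_top_of_le_one (by omega)
  · obtain rfl : n = 2 := by omega
    exact sol_gl_two

end small

section gsp
variable {κ : Type} [Field κ] {n : ℕ}

/-- infinitesimal similitudes of a bilinear form -/
def gsp (B : Matrix (Fin n) (Fin n) κ) : Submodule κ (Matrix (Fin n) (Fin n) κ) where
  carrier := {X | ∃ c : κ, Xᵀ * B + B * X = c • B}
  add_mem' := by
    rintro x y ⟨c, hc⟩ ⟨d, hd⟩
    refine ⟨c + d, ?_⟩
    rw [add_smul, ← hc, ← hd, Matrix.transpose_add]
    noncomm_ring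
  zero_mem' := ⟨0, by simp⟩
  smul_mem' := by
    rintro a x ⟨c, hc⟩
    refine ⟨a * c, ?_⟩
    rw [mul_smul, ← hc, Matrix.transpose_smul, smul_mul_assoc, mul_smul_comm, smul_add]

theorem mem_gsp {B X : Matrix (Fin n) (Fin n) κ} :
    X ∈ gsp B ↔ ∃ c : κ, Xᵀ * B + B * X = c • B := Iff.rfl

/-- infinitesimal isometries -/
def isp (B : Matrix (Fin n) (Fin n) κ) : Submodule κ (Matrix (Fin n) (Fin n) κ) where
  carrier := {X | Xᵀ * B + B * X = 0}
  add_mem' := by
    intro x y hx hy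
    show (x + y)ᵀ * B + B * (x + y) = 0
    have hx' : xᵀ * B + B * x = 0 := hx
    have hy' : yᵀ * B + B * y = 0 := hy
    rw [Matrix.transpose_add]
    calc (xᵀ + yᵀ) * B + B * (x + y) = (xᵀ * B + B * x) + (yᵀ * B + B * y) := by noncomm_ring
      _ = 0 := by rw [hx', hy', add_zero]
  zero_mem' := by
    show (0 : Matrix (Fin n) (Fin n) κ)ᵀ * B + B * 0 = 0
    simp
  smul_mem' := by
    intro a x hx
    have hx' : xᵀ * B + B * x = 0 := hx
    show (a • x)ᵀ * B + B * (a • x) = 0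
    rw [Matrix.transpose_smul, smul_mul_assoc, mul_smul_comm, ← smul_add, hx', smul_zero]

theorem mem_isp {B X : Matrix (Fin n) (Fin n) κ} :
    X ∈ isp B ↔ Xᵀ * B + B * X = 0 := Iff.rfl

/-- `B X` is alternating (in characteristic two) -/
def alt (B : Matrix (Fin n) (Fin n) κ) : Submodule κ (Matrix (Fin n) (Fin n) κ) where
  carrier := {X | (∀ i, (B * X) i i = 0) ∧ ∀ i j, (B * X) i j = (B * X) j i}
  add_mem' := by
    rintro x y ⟨h1, h2⟩ ⟨h3, h4⟩
    refine ⟨fun i => ?_, fun i j => ?_⟩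
    · rw [mul_add, Matrix.add_apply, h1, h3, add_zero]
    · rw [mul_add, Matrix.add_apply, Matrix.add_apply, h2, h4]
  zero_mem' := ⟨fun i => by simp, fun i j => by simp⟩
  smul_mem' := by
    rintro a x ⟨h1, h2⟩
    refine ⟨fun i => ?_, fun i j => ?_⟩
    · rw [mul_smul_comm, Matrix.smul_apply, h1, smul_zero]
    · rw [mul_smul_comm, Matrix.smul_apply, Matrix.smul_apply, h2]

theorem mem_alt {B X : Matrix (Fin n) (Fin n) κ} :
    X ∈ alt B ↔ (∀ i, (B * X) i i = 0) ∧ ∀ i j, (B * X) i j = (B * X) j i := Iff.rfl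

theorem gsp_comm {B X Y : Matrix (Fin n) (Fin n) κ} (hX : X ∈ gsp B) (hY : Y ∈ gsp B) :
    X * Y - Y * X ∈ isp B := by
  obtain ⟨c, hc⟩ := hX
  obtain ⟨d, hd⟩ := hY
  have hc' : Xᵀ * B = c • B - B * X := by rw [← hc]; abel
  have hd' : Yᵀ * B = d • B - B * Y := by rw [← hd]; abel
  rw [mem_isp, Matrix.transpose_sub, Matrix.transpose_mul, Matrix.transpose_mul, sub_mul,
    mul_assoc, mul_assoc, hc', hd', mul_sub, mul_sub, mul_smul_comm, mul_smul_comm, ← mul_assoc,
    ← mul_assoc, hc', hd', smul_sub, smul_sub, sub_mul, sub_mul, smul_mul_assoc, smul_mul_assoc,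
    smul_smul, smul_smul, mul_comm d c, mul_sub, mul_assoc, mul_assoc]
  abel

theorem isp_comm [CharP κ 2] {B X Y : Matrix (Fin n) (Fin n) κ} (hB : Bᵀ = B) (hX : X ∈ isp B)
    (hY : Y ∈ isp B) : X * Y - Y * X ∈ alt B := by
  rw [mem_isp] at hX hY
  have hX' : B * X = - (Xᵀ * B) := by rw [eq_neg_iff_add_eq_zero, add_comm]; exact hX
  have hY' : B * Y = - (Yᵀ * B) := by rw [eq_neg_iff_add_eq_zero, add_comm]; exact hY
  set M := Xᵀ * B * Y with hM
  have h1 : B * (X * Y - Y * X) = M + Mᵀ := by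
    have h2 : Mᵀ = Yᵀ * B * X := by
      rw [hM, Matrix.transpose_mul, Matrix.transpose_mul, Matrix.transpose_transpose, hB,
        mul_assoc]
    have h3 : ∀ Z : Matrix (Fin n) (Fin n) κ, - Z = Z := by
      intro Z
      ext i j
      rw [Matrix.neg_apply, CharTwo.neg_eq]
    rw [h2, hM, mul_sub, ← mul_assoc, ← mul_assoc, hX', hY', h3, h3, sub_eq_add_neg, h3]
  rw [mem_alt, h1]
  refine ⟨fun i => ?_, fun i j => ?_⟩
  · rw [Matrix.add_apply, Matrix.transpose_apply, CharTwo.add_self_eq_zero]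
  · rw [Matrix.add_apply, Matrix.add_apply, Matrix.transpose_apply, Matrix.transpose_apply,
      add_comm]

end gsp

section four
variable {κ : Type} [Field κ]

/-- the alternating matrix with given upper entries -/
def am (a b c d e f : κ) : Matrix (Fin 4) (Fin 4) κ :=
  !![0, a, b, c; -a, 0, d, e; -b, -d, 0, f; -c, -e, -f, 0]

/-- its adjoint -/
def ah (a b c d e f : κ) : Matrix (Fin 4) (Fin 4) κ :=
  !![0, -f, e, -d; f, 0, -c, b; -e, c, 0, -a; d, -b, a, 0]

theorem ah_mul (a b c d e f : κ) :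
    ah a b c d e f * am a b c d e f = (a * f - b * e + c * d) • 1 := by
  ext i j
  fin_cases i <;> fin_cases j <;>
    simp [ah, am, Matrix.mul_apply, Fin.sum_univ_four] <;> ring

theorem am_mul (a b c d e f : κ) :
    am a b c d e f * ah a b c d e f = (a * f - b * e + c * d) • 1 := by
  ext i j
  fin_cases i <;> fin_cases j <;>
    simp [ah, am, Matrix.mul_apply, Fin.sum_univ_four] <;> ring

theorem am_id (a b c d e f a' b' c' d' e' f' x y z u v w : κ) :
    am a b c d e f * ah x y z u v w * am a' b' c' d' e' f' +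
      am a' b' c' d' e' f' * ah x y z u v w * am a b c d e f =
    (a * w + f * x - b * v - e * y + c * u + d * z) • am a' b' c' d' e' f' +
    (a' * w + f' * x - b' * v - e' * y + c' * u + d' * z) • am a b c d e f -
    (a * f' + f * a' - b * e' - e * b' + c * d' + d * c') • am x y z u v w := by
  ext i j
  fin_cases i <;> fin_cases j <;>
    simp [ah, am, Matrix.mul_apply, Fin.sum_univ_four] <;> ring

/-- the polar form of the Pfaffian -/
def pol (A C : Matrix (Fin 4) (Fin 4) κ) : κ :=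
  A 0 1 * C 2 3 + A 2 3 * C 0 1 - A 0 2 * C 1 3 - A 1 3 * C 0 2 + A 0 3 * C 1 2 + A 1 2 * C 0 3

variable [CharP κ 2]

theorem eq_am {A : Matrix (Fin 4) (Fin 4) κ} (h1 : ∀ i, A i i = 0) (h2 : ∀ i j, A i j = A j i) :
    A = am (A 0 1) (A 0 2) (A 0 3) (A 1 2) (A 1 3) (A 2 3) := by
  ext i j
  fin_cases i <;> fin_cases j <;> simp [am, h1, CharTwo.neg_eq]
  · exact h2 1 0
  · exact h2 2 0
  · exact h2 2 1
  · exact h2 3 0
  · exact h2 3 1
  · exact h2 3 2

/-- the Cayley-Hamilton theorem for Pfaffians, polarized -/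
theorem alt_rel {B : Matrix (Fin 4) (Fin 4) κ} (h1 : ∀ i, B i i = 0) (h2 : ∀ i j, B i j = B j i)
    (hu : IsUnit B) {X Y : Matrix (Fin 4) (Fin 4) κ} (hX : X ∈ alt B) (hY : Y ∈ alt B) :
    ∃ c : κ, c ≠ 0 ∧ B * (X * Y - Y * X) =
      c • (pol (B * X) B • (B * Y) + pol (B * Y) B • (B * X) - pol (B * X) (B * Y) • B) ∧
      pol B B = 0 := by
  have h3 : ∀ Z : Matrix (Fin 4) (Fin 4) κ, - Z = Z := by
    intro Z
    ext i j
    rw [Matrix.neg_apply, CharTwo.neg_eq]
  have hB := eq_am h1 h2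
  have hA := eq_am hX.1 hX.2
  have hC := eq_am hY.1 hY.2
  set H := ah (B 0 1) (B 0 2) (B 0 3) (B 1 2) (B 1 3) (B 2 3) with hH
  set q := B 0 1 * B 2 3 - B 0 2 * B 1 3 + B 0 3 * B 1 2 with hq
  have hHB : H * B = q • 1 := by
    conv_lhs => rw [hB]
    rw [hH, ah_mul]
  have hq0 : q ≠ 0 := by
    intro h0
    rw [h0, zero_smul] at hHB
    have h4 : H = 0 := (hu.mul_left_eq_zero).1 hHB
    have h5 : B = 0 := by
      rw [hB]
      have e1 : H 0 1 = 0 := by rw [h4]; rfl
      have e2 : H 0 2 = 0 := by rw [h4]; rfl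
      have e3 : H 0 3 = 0 := by rw [h4]; rfl
      have e4 : H 1 2 = 0 := by rw [h4]; rfl
      have e5 : H 1 3 = 0 := by rw [h4]; rfl
      have e6 : H 2 3 = 0 := by rw [h4]; rfl
      simp [hH, ah] at e1 e2 e3 e4 e5 e6
      rw [e1, e2, e3, e4, e5, e6]
      ext i j
      fin_cases i <;> fin_cases j <;> simp [am]
    rw [h5] at hu
    exact not_isUnit_zero hu
  refine ⟨q⁻¹, inv_ne_zero hq0, ?_, ?_⟩
  · have hXe : X = q⁻¹ • (H * (B * X)) := by
      rw [← mul_assoc, hHB, smul_mul_assoc, one_mul, smul_smul, inv_mul_cancel₀ hq0, one_smul]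
    have hYe : Y = q⁻¹ • (H * (B * Y)) := by
      rw [← mul_assoc, hHB, smul_mul_assoc, one_mul, smul_smul, inv_mul_cancel₀ hq0, one_smul]
    have h5 := am_id ((B * X) 0 1) ((B * X) 0 2) ((B * X) 0 3) ((B * X) 1 2) ((B * X) 1 3)
      ((B * X) 2 3) ((B * Y) 0 1) ((B * Y) 0 2) ((B * Y) 0 3) ((B * Y) 1 2) ((B * Y) 1 3)
      ((B * Y) 2 3) (B 0 1) (B 0 2) (B 0 3) (B 1 2) (B 1 3) (B 2 3)
    rw [← hA, ← hC, ← hB, ← hH] at h5
    have h6 : B * (X * Y - Y * X) = q⁻¹ • (B * X * H * (B * Y) + B * Y * H * (B * X)) := by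
      have e1 : B * (X * Y) = q⁻¹ • (B * X * H * (B * Y)) := by
        conv_lhs => rw [hYe]
        rw [mul_smul_comm, mul_smul_comm]
        congr 1
        noncomm_ring
      have e2 : B * (Y * X) = q⁻¹ • (B * Y * H * (B * X)) := by
        conv_lhs => rw [hXe]
        rw [mul_smul_comm, mul_smul_comm]
        congr 1
        noncomm_ring
      rw [mul_sub, e1, e2, sub_eq_add_neg, h3, smul_add]
    rw [h6, h5]
    rfl
  · unfold pol
    have h2 : (2 : κ) = 0 := CharTwo.two_eq_zero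
    linear_combination (B 0 1 * B 2 3 - B 0 2 * B 1 3 + B 0 3 * B 1 2) * h2

/-- the subspace of trace zero -/
def alt0 (B : Matrix (Fin 4) (Fin 4) κ) : Submodule κ (Matrix (Fin 4) (Fin 4) κ) where
  carrier := {X | X ∈ alt B ∧ pol (B * X) B = 0}
  add_mem' := by
    rintro x y ⟨h1, h2⟩ ⟨h3, h4⟩
    refine ⟨(alt B).add_mem h1 h3, ?_⟩
    have : pol (B * (x + y)) B = pol (B * x) B + pol (B * y) B := by
      rw [mul_add]
      unfold pol
      simp only [Matrix.add_apply]
      ring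
    rw [this, h2, h4, add_zero]
  zero_mem' := ⟨(alt B).zero_mem, by unfold pol; simp⟩
  smul_mem' := by
    rintro a x ⟨h1, h2⟩
    refine ⟨(alt B).smul_mem _ h1, ?_⟩
    have : pol (B * (a • x)) B = a * pol (B * x) B := by
      rw [mul_smul_comm]
      unfold pol
      simp only [Matrix.smul_apply, smul_eq_mul]
      ring
    rw [this, h2, mul_zero]

theorem sol_alt {n : ℕ} {B : Matrix (Fin n) (Fin n) κ} (h2 : ∀ i j, B i j = B j i) :
    Sol (alt B) (gsp B) := by
  have hB : Bᵀ = B := by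
    ext i j
    exact (h2 i j).symm
  refine Sol.step (fun x hx y hy => gsp_comm hx hy) ?_
  refine Sol.step (fun x hx y hy => isp_comm hB hx hy) ?_
  exact Sol.base le_rfl

theorem sol_gsp_four {B : Matrix (Fin 4) (Fin 4) κ} (h1 : ∀ i, B i i = 0)
    (h2 : ∀ i j, B i j = B j i) (hu : IsUnit B) : Sol ⊥ (gsp B) := by
  have hB : Bᵀ = B := by
    ext i j
    exact (h2 i j).symm
  have hB1 : (1 : Matrix (Fin 4) (Fin 4) κ) ∈ alt B := by
    rw [mem_alt, mul_one]
    exact ⟨h1, h2⟩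
  refine Sol.step (fun x hx y hy => gsp_comm hx hy) ?_
  refine Sol.step (fun x hx y hy => isp_comm hB hx hy) ?_
  have hcan : ∀ X Y : Matrix (Fin 4) (Fin 4) κ, B * X = B * Y → X = Y := fun X Y h =>
    hu.mul_left_cancel h
  refine Sol.step (L' := alt0 B) (fun x hx y hy => ?_) ?_
  · obtain ⟨c, hc, h3, h4⟩ := alt_rel h1 h2 hu hx hy
    have h5 : x * y - y * x = c • (pol (B * x) B • y + pol (B * y) B • x -
        pol (B * x) (B * y) • 1) := by
      apply hcan
      rw [h3, mul_smul_comm, mul_sub, mul_add, mul_smul_comm, mul_smul_comm, mul_smul_comm, mul_one]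
    refine ⟨?_, ?_⟩
    · rw [h5]
      exact (alt B).smul_mem _ ((alt B).sub_mem ((alt B).add_mem ((alt B).smul_mem _ hy)
        ((alt B).smul_mem _ hx)) ((alt B).smul_mem _ hB1))
    · rw [h3]
      have h6 : ∀ s t r : κ, pol (c • (s • (B * y) + t • (B * x) - r • B)) B =
          c * (s * pol (B * y) B + t * pol (B * x) B - r * pol B B) := by
        intro s t r
        unfold pol
        simp only [Matrix.smul_apply, Matrix.add_apply, Matrix.sub_apply, smul_eq_mul]
        ring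
      rw [h6, h4]
      have h2 : (2 : κ) = 0 := CharTwo.two_eq_zero
      linear_combination (c * pol (B * x) B * pol (B * y) B) * h2
  refine Sol.step (L' := Submodule.span κ {1}) (fun x hx y hy => ?_) sol_span_one
  obtain ⟨c, hc, h3, h4⟩ := alt_rel h1 h2 hu hx.1 hy.1
  rw [Submodule.mem_span_singleton]
  refine ⟨- (c * pol (B * x) (B * y)), ?_⟩
  apply hcan
  rw [h3, hx.2, hy.2, zero_smul, zero_smul, zero_add, zero_sub, mul_smul_comm, mul_one, smul_neg,
    smul_smul, neg_smul]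

theorem det_alt_three {B : Matrix (Fin 3) (Fin 3) κ} (h1 : ∀ i, B i i = 0)
    (h2 : ∀ i j, B i j = B j i) : ¬ IsUnit B := by
  intro hu
  rw [Matrix.isUnit_iff_isUnit_det, Matrix.det_fin_three, h1 0, h1 1, h1 2, h2 1 0, h2 2 0,
    h2 2 1] at hu
  have h2 : (2 : κ) = 0 := CharTwo.two_eq_zero
  have : (0 : κ) * 0 * 0 - 0 * B 1 2 * B 1 2 - B 0 1 * B 0 1 * 0 + B 0 1 * B 1 2 * B 0 2 +
      B 0 2 * B 0 1 * B 1 2 - B 0 2 * 0 * B 0 2 = 0 := by
    linear_combination (B 0 1 * B 1 2 * B 0 2) * h2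
  rw [this] at hu
  exact not_isUnit_zero hu

end four

end Pool.Agent.Run7.h735.FM
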