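import Mathlib

/-!
# Solvable spaces of matrices (helper735)
-/

set_option autoImplicit false

namespace Pool.Agent.Run7.h735.FM

open Matrix

attribute [local instance 100] LieRing.ofAssociativeRing LieAlgebra.ofAssociativeAlgebra

section
variable {κ : Type} [Field κ]

/-- a space of matrices with a chain of spaces, each of which contains the commutators of the
preceding one, ending with a subspace of `Z` -/
inductive Sol {n : ℕ} (Z : Submodule κ (Matrix (Fin n) (Fin n) κ)) :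
    Submodule κ (Matrix (Fin n) (Fin n) κ) → Prop
  | base {L : Submodule κ (Matrix (Fin n) (Fin n) κ)} : L ≤ Z → Sol Z L
  | step {L L' : Submodule κ (Matrix (Fin n) (Fin n) κ)} :
      (∀ x ∈ L, ∀ y ∈ L, x * y - y * x ∈ L') → Sol Z L' → Sol Z L

variable {n : ℕ} {Z : Submodule κ (Matrix (Fin n) (Fin n) κ)}

theorem Sol.mono {L M : Submodule κ (Matrix (Fin n) (Fin n) κ)} (h : Sol Z M) (hLM : L ≤ M) :
    Sol Z L := by
  cases h with
  | base h1 => exact Sol.base (hLM.trans h1)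
  | step h1 h2 => exact Sol.step (fun x hx y hy => h1 x (hLM hx) y (hLM hy)) h2

/-- a subspace generated by elements which are multiples of commutators of elements of the
subspace is in `Z` -/
theorem Sol.le {L : Submodule κ (Matrix (Fin n) (Fin n) κ)} (h : Sol Z L)
    (G : Set (Matrix (Fin n) (Fin n) κ)) (hWL : Submodule.span κ G ≤ L)
    (hG : ∀ b ∈ G, ∃ f ∈ Submodule.span κ G, ∃ u : κ, u ≠ 0 ∧ f * b - b * f = u • b) :
    Submodule.span κ G ≤ Z := by
  induction h with
  | base h1 => exact hWL.trans h1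
  | step h1 h2 ih =>
    apply ih
    rw [Submodule.span_le]
    intro b hb
    obtain ⟨f, hf, u, hu, hfb⟩ := hG b hb
    have h3 := h1 f (hWL hf) b (hWL (Submodule.subset_span hb))
    rw [hfb] at h3
    have h4 := Submodule.smul_mem _ u⁻¹ h3
    rwa [smul_smul, inv_mul_cancel₀ hu, one_smul] at h4

theorem Sol.zero {L : Submodule κ (Matrix (Fin n) (Fin n) κ)} (h : Sol Z L)
    (G : Set (Matrix (Fin n) (Fin n) κ)) (hWL : Submodule.span κ G ≤ L)
    (hG : ∀ b ∈ G, ∃ f ∈ Submodule.span κ G, ∃ u : κ, u ≠ 0 ∧ f * b - b * f = u • b)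
    (hZ : ∀ b ∈ G, b ∈ Z → b = 0) : Submodule.span κ G = ⊥ := by
  have h1 := h.le G hWL hG
  rw [eq_bot_iff, Submodule.span_le]
  intro b hb
  rw [SetLike.mem_coe, Submodule.mem_bot]
  exact hZ b hb (h1 (Submodule.subset_span hb))

/-- change of fields -/
def pull {κ' : Type} [Field κ'] (τ : κ' →+* κ) (L : Submodule κ (Matrix (Fin n) (Fin n) κ)) :
    Submodule κ' (Matrix (Fin n) (Fin n) κ') where
  carrier := {X | X.map τ ∈ L}
  add_mem' := by
    intro a b ha hb
    show (a + b).map τ ∈ L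
    rw [Matrix.map_add _ (map_add τ)]
    exact L.add_mem ha hb
  zero_mem' := by
    show (0 : Matrix (Fin n) (Fin n) κ').map τ ∈ L
    rw [Matrix.map_zero _ (map_zero τ)]
    exact L.zero_mem
  smul_mem' := by
    intro c x hx
    show (c • x).map τ ∈ L
    have : (c • x).map τ = τ c • x.map τ := by
      ext i j
      simp
    rw [this]
    exact L.smul_mem _ hx

theorem mem_pull {κ' : Type} [Field κ'] (τ : κ' →+* κ)
    (L : Submodule κ (Matrix (Fin n) (Fin n) κ)) (X : Matrix (Fin n) (Fin n) κ') :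
    X ∈ pull τ L ↔ X.map τ ∈ L := Iff.rfl

theorem Sol.pull {κ' : Type} [Field κ'] (τ : κ' →+* κ)
    {L : Submodule κ (Matrix (Fin n) (Fin n) κ)} (h : Sol Z L) :
    Sol (pull τ Z) (pull τ L) := by
  induction h with
  | base h1 => exact Sol.base fun X hX => h1 hX
  | step h1 h2 ih =>
    refine Sol.step (fun x hx y hy => ?_) ih
    rw [mem_pull] at hx hy ⊢
    have := h1 _ hx _ hy
    rw [← Matrix.map_mul, ← Matrix.map_mul, ← Matrix.map_sub _ (map_sub τ)] at this
    exact this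

/-- the terms of the derived series, as spaces of matrices -/
def der (𝔤 : LieSubalgebra κ (Matrix (Fin n) (Fin n) κ)) (i : ℕ) :
    Submodule κ (Matrix (Fin n) (Fin n) κ) :=
  (LieAlgebra.derivedSeries κ 𝔤 i).toSubmodule.map 𝔤.toSubmodule.subtype

theorem mem_der {𝔤 : LieSubalgebra κ (Matrix (Fin n) (Fin n) κ)} {i : ℕ} {x : 𝔤} :
    (x : Matrix (Fin n) (Fin n) κ) ∈ der 𝔤 i ↔ x ∈ LieAlgebra.derivedSeries κ 𝔤 i := by
  constructor
  · rintro ⟨y, hy, hyx⟩
    have : y = x := Subtype.ext hyx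
    rw [← this]
    exact hy
  · intro h
    exact ⟨x, h, rfl⟩

/-- Lie algebras -/
theorem sol_of_lie (𝔤 : LieSubalgebra κ (Matrix (Fin n) (Fin n) κ)) (k : ℕ) :
    Sol (der 𝔤 k) 𝔤.toSubmodule := by
  have hstep : ∀ i, ∀ x ∈ der 𝔤 i, ∀ y ∈ der 𝔤 i, x * y - y * x ∈ der 𝔤 (i + 1) := by
    rintro i _ ⟨x, hx, rfl⟩ _ ⟨y, hy, rfl⟩
    refine ⟨@Bracket.bracket 𝔤 𝔤 _ x y, ?_, ?_⟩
    · show @Bracket.bracket 𝔤 𝔤 _ x y ∈ LieAlgebra.derivedSeries κ 𝔤 (i + 1)
      rw [LieAlgebra.derivedSeries_def, LieAlgebra.derivedSeriesOfIdeal_succ]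
      exact LieSubmodule.lie_mem_lie hx hy
    · rfl
  have hsol : ∀ j, Sol (der 𝔤 k) (der 𝔤 (k - j)) := by
    intro j
    induction j with
    | zero => exact Sol.base le_rfl
    | succ j ih =>
      by_cases h : j < k
      · have e : k - j = (k - (j + 1)) + 1 := by omega
        rw [e] at ih
        exact Sol.step (hstep _) ih
      · have e : k - (j + 1) = k - j := by omega
        rw [e]
        exact ih
  have h0 := hsol k
  rw [Nat.sub_self] at h0
  refine h0.mono ?_
  intro x hx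
  refine ⟨⟨x, hx⟩, ?_, rfl⟩
  show (⟨x, hx⟩ : 𝔤) ∈ LieAlgebra.derivedSeries κ 𝔤 0
  rw [LieAlgebra.derivedSeries_def, LieAlgebra.derivedSeriesOfIdeal_zero]
  exact LieSubmodule.mem_top _

end

end Pool.Agent.Run7.h735.FM
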